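import Pool.Agent.Lib.MP_f00570_lc.Main

/-!
# PFA over an inner model with covering and preservation of stationary sets

If PFA holds and `N` is a definable inner model with `Cover N` and `StatPres N`, then `ω₂` is
supercompact in a definable inner model containing `N`.
-/

namespace Pool.Agent.Results.MP_f00570_lc.ApproxClosure

open Pool.Agent.Lib.MP_f9eb18_lc Pool.Agent.Lib.MP_f00570_lc

theorem result (hP : PFA) (N : Set V) (hN : InnerModel N) (hC : Cover N) (hS : StatPres N) :
    ∃ K : Set V, InnerModel K ∧ N ⊆ K ∧ Supercompact K (Ordinal.omega 2) :=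
  main hP N hN hC hS

end Pool.Agent.Results.MP_f00570_lc.ApproxClosure
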