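import Pool.Agent.Lib.MP_f00570_lc.T.I

/-!
# PFA with local models that have few traces and preserve stationary sets

If PFA holds and every ordinal lies in a transitive model `N` of ZFC (a set or a class, definable
or not) with `Trace N` and `PresAt N η` for the smaller `η` of cofinality `ω₁`, then `ω₂` is
supercompact in a definable inner model.
-/

namespace Pool.Agent.Results.MP_f00570_lc.LocalModels

open Pool.Agent.Lib.MP_f9eb18_lc Pool.Agent.Lib.MP_f9eb18_lc.W Pool.Agent.Lib.MP_f00570_lc

theorem result (hP : PFA)
    (h : ∀ lam : Ordinal.{0}, ∃ N : Set V, IsZFC N ∧ lam.toZFSet ∈ N ∧ Trace N ∧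
      ∀ η < lam, η.cof = Cardinal.aleph 1 → PresAt N η) :
    ∃ K : Set V, InnerModel K ∧ Supercompact K (Ordinal.omega 2) :=
  main5 hP h

end Pool.Agent.Results.MP_f00570_lc.LocalModels
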